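import Pool.Agent.J6H9.EV.Stm
import Pool.Agent.J6H46.EU.Den

/-! # EV-SUB2: the density ideal of the blocks is contained in the ideal of the weights -/

set_option autoImplicit false

namespace Pool.Agent.J6H92.EV

open Filter Topology Pool.Agent.J6H9.EU Pool.Agent.J6H9.EV
open Pool.Agent.J6H46.EU (st_succ st_zero st_mono idx idx_le lt_idx idx_tendsto ncard_D)

variable {d : ℕ → ℕ} {f : ℕ → ℝ}

open Classical in
/-- weighted counting function -/
noncomputable def SA (f : ℕ → ℝ) (A : Set ℕ) (N : ℕ) : ℝ := ∑ i ∈ (Finset.range N).filter (· ∈ A), f i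

lemma SA_mono (hf : ∀ n, 0 < f n) (A : Set ℕ) : Monotone (SA f A) := by
  classical
  intro M N h
  unfold SA
  apply Finset.sum_le_sum_of_subset_of_nonneg
  · intro x hx
    rw [Finset.mem_filter, Finset.mem_range] at hx ⊢
    exact ⟨by omega, hx.2⟩
  · intro i _ _
    exact (hf i).le

lemma SA_nonneg (hf : ∀ n, 0 < f n) (A : Set ℕ) (N : ℕ) : 0 ≤ SA f A N := by
  classical
  unfold SA
  exact Finset.sum_nonneg fun i _ => (hf i).le

lemma SA_le_F (hf : ∀ n, 0 < f n) (A : Set ℕ) (N : ℕ) : SA f A N ≤ F f N := by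
  classical
  unfold SA F
  exact Finset.sum_le_sum_of_subset_of_nonneg (Finset.filter_subset _ _) fun i _ _ => (hf i).le

lemma F_mono (hf : ∀ n, 0 < f n) : Monotone (F f) := by
  intro M N h
  unfold F
  exact Finset.sum_le_sum_of_subset_of_nonneg (Finset.range_subset_range.2 h) fun i _ _ => (hf i).le

lemma SA_block (hd : ∀ n, 0 < d n) (hup : ∀ n, ∀ x ∈ D d n, f x ≤ 2 * f (st d n)) (A : Set ℕ) (n : ℕ) :
    SA f A (st d (n + 1)) ≤ SA f A (st d n) +
      2 * (((A ∩ D d n).ncard : ℝ) / d n) * (d n * f (st d n)) := by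
  classical
  have h1 : ∑ i ∈ Finset.Ico (st d n) (st d n + d n), (if i ∈ A then f i else 0) ≤
      2 * (((A ∩ D d n).ncard : ℝ) / d n) * (d n * f (st d n)) := by
    rw [← Finset.sum_filter]
    have h2 : ∀ i ∈ (Finset.Ico (st d n) (st d n + d n)).filter (· ∈ A), f i ≤ 2 * f (st d n) := by
      intro i hi
      rw [Finset.mem_filter, Finset.mem_Ico] at hi
      exact hup n i (Set.mem_Ico.2 hi.1)
    refine (Finset.sum_le_card_nsmul _ _ _ h2).trans (le_of_eq ?_)
    have h3 : ((Finset.Ico (st d n) (st d n + d n)).filter (· ∈ A)).card = (A ∩ D d n).ncard := by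
      rw [← Set.ncard_coe_finset]
      congr 1
      ext x
      simp only [Finset.coe_filter, Finset.mem_Ico, Set.mem_ofPred_eq, Set.mem_inter_iff, D, Set.mem_Ico]
      tauto
    rw [h3, nsmul_eq_mul]
    have h4 : (d n : ℝ) ≠ 0 := by exact_mod_cast (hd n).ne'
    field_simp
  have h5 : SA f A (st d (n + 1)) = SA f A (st d n) +
      ∑ i ∈ Finset.Ico (st d n) (st d n + d n), (if i ∈ A then f i else 0) := by
    unfold SA
    rw [Finset.sum_filter, Finset.sum_filter, st_succ, Finset.range_eq_Ico, Finset.range_eq_Ico,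
      Finset.sum_Ico_consecutive _ (Nat.zero_le _) (Nat.le_add_right _ _)]
  rw [h5]
  linarith

lemma F_block (hlo : ∀ n, ∀ x ∈ D d n, f (st d n) ≤ f x) (n : ℕ) :
    F f (st d n) + d n * f (st d n) ≤ F f (st d (n + 1)) := by
  have h1 : (d n : ℝ) * f (st d n) ≤ ∑ i ∈ Finset.Ico (st d n) (st d n + d n), f i := by
    have h2 := Finset.card_nsmul_le_sum (Finset.Ico (st d n) (st d n + d n)) f (f (st d n))
      (fun i hi => hlo n i (Set.mem_Ico.2 (Finset.mem_Ico.1 hi)))
    rw [Nat.card_Ico, nsmul_eq_mul, Nat.add_sub_cancel_left] at h2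
    exact h2
  have h5 : F f (st d (n + 1)) = F f (st d n) + ∑ i ∈ Finset.Ico (st d n) (st d n + d n), f i := by
    unfold F
    rw [st_succ, Finset.range_eq_Ico, Finset.range_eq_Ico,
      Finset.sum_Ico_consecutive _ (Nat.zero_le _) (Nat.le_add_right _ _)]
  rw [h5]
  linarith

lemma SA_le (hf : ∀ n, 0 < f n) (hd : ∀ n, 0 < d n) (hlo : ∀ n, ∀ x ∈ D d n, f (st d n) ≤ f x)
    (hup : ∀ n, ∀ x ∈ D d n, f x ≤ 2 * f (st d n)) (A : Set ℕ) {K : ℕ} {ε : ℝ} (hε : 0 ≤ ε)
    (h : ∀ k, K ≤ k → ((A ∩ D d k).ncard : ℝ) / d k ≤ ε) (k : ℕ) :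
    SA f A (st d k) ≤ F f (st d K) + 2 * ε * F f (st d k) := by
  have hF0 : ∀ N, 0 ≤ F f N := fun N => (SA_nonneg hf A N).trans (SA_le_F hf A N)
  induction k with
  | zero =>
    rw [st_zero]
    have h1 : SA f A 0 = 0 := by unfold SA; simp
    have h2 := hF0 (st d K)
    have h3 := mul_nonneg (mul_nonneg zero_le_two hε) (hF0 0)
    linarith
  | succ k ih =>
    rcases Nat.lt_or_ge k K with h1 | h1
    · have h2 := SA_le_F hf A (st d (k + 1))
      have h3 := F_mono hf (st_mono (d := d) (show k + 1 ≤ K by omega))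
      have h4 := mul_nonneg (mul_nonneg zero_le_two hε) (hF0 (st d (k + 1)))
      linarith
    · have h2 := SA_block hd hup A k
      have h3 := F_block hlo k
      have h4 : 0 ≤ (d k : ℝ) * f (st d k) := mul_nonneg (Nat.cast_nonneg _) (hf _).le
      have h5 : 2 * (((A ∩ D d k).ncard : ℝ) / d k) * (d k * f (st d k)) ≤ 2 * ε * (d k * f (st d k)) :=
        mul_le_mul_of_nonneg_right (by linarith [h k h1]) h4
      have h6 : 2 * ε * (F f (st d k) + d k * f (st d k)) ≤ 2 * ε * F f (st d (k + 1)) :=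
        mul_le_mul_of_nonneg_left h3 (by linarith)
      linarith

theorem main : S_SUB2 := by
  classical
  intro f d hf hd hF hlo hup hsm A hA
  have hF0 : ∀ N, 0 ≤ F f N := fun N => (SA_nonneg hf A N).trans (SA_le_F hf A N)
  have hA' : Tendsto (fun n => ((A ∩ D d n).ncard : ℝ) / d n) atTop (𝓝 0) := hA
  have hgoal : Tendsto (fun N => SA f A N / F f N) atTop (𝓝 0) := by
    rw [Metric.tendsto_atTop] at hA' ⊢
    intro ε hε
    obtain ⟨K, hK⟩ := hA' (ε / 8) (by positivity)
    have hK' : ∀ k, K ≤ k → ((A ∩ D d k).ncard : ℝ) / d k ≤ ε / 8 := by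
      intro k hk
      have := hK k hk
      rw [Real.dist_eq, sub_zero] at this
      exact (le_abs_self _).trans this.le
    have hev := (hF.eventually_ge_atTop (F f (st d K) / (ε / 8) + 1)).and
      (((idx_tendsto hd).comp (tendsto_sub_atTop_nat 1)).eventually_ge_atTop K)
    obtain ⟨N0, hN0⟩ := eventually_atTop.1 (hev.and (eventually_ge_atTop 1))
    refine ⟨N0, fun N hN => ?_⟩
    obtain ⟨⟨h1, h2⟩, h3⟩ := hN0 N hN
    have h2' : K ≤ idx d (N - 1) := h2
    have h4 := idx_le (d := d) (N - 1)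
    have h5 := lt_idx hd (N - 1)
    set k := idx d (N - 1) with hk
    have h6 : SA f A N ≤ SA f A (st d (k + 1)) := SA_mono hf A (by omega)
    have h7 := SA_block hd hup A k
    have h8 := SA_le hf hd hlo hup A (K := K) (ε := ε / 8) (by positivity) hK' k
    have h9 : F f (st d k) ≤ F f N := F_mono hf (by omega)
    have h10 : F f (st d k + 1) ≤ F f N := F_mono hf (by omega)
    have h11 := hsm k
    have h12 : 0 ≤ (d k : ℝ) * f (st d k) := mul_nonneg (Nat.cast_nonneg _) (hf _).le
    have h13 : 2 * (((A ∩ D d k).ncard : ℝ) / d k) * (d k * f (st d k)) ≤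
        2 * (ε / 8) * (2 * F f N) :=
      mul_le_mul (by linarith [hK' k h2']) (by linarith) h12 (by positivity)
    have h14 : 2 * (ε / 8) * F f (st d k) ≤ 2 * (ε / 8) * F f N :=
      mul_le_mul_of_nonneg_left h9 (by positivity)
    have h15 : F f (st d K) ≤ ε / 8 * (F f N - 1) := by
      have : F f (st d K) / (ε / 8) ≤ F f N - 1 := by linarith
      rw [div_le_iff₀ (by positivity)] at this
      linarith
    have h16 : 0 < F f N := by
      have : 0 ≤ F f (st d K) / (ε / 8) := div_nonneg (hF0 _) (by positivity)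
      linarith
    rw [Real.dist_eq, sub_zero, abs_of_nonneg (div_nonneg (SA_nonneg hf A N) h16.le), div_lt_iff₀ h16]
    have h17 : 0 < ε * F f N := mul_pos hε h16
    nlinarith
  exact hgoal

end Pool.Agent.J6H92.EV
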